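import Pool.Agent.H88.B2.Targets2

/-!
# Row ALB of the board bpd_modules: the linear programme of case B
-/

set_option autoImplicit false
set_option linter.unusedVariables false

namespace Pool.Agent.H12.B2.ALB

open Pool.Agent.H83.G Pool.Agent.H88.B2 Pool.Agent.H22.G4

/-- the linear programme -/
lemma lp (n h q e α r l a b y v0 v1 : ℝ) (m0 m1 m2 m3 M0 M1 M2 M3 t0 t1 t2 t3 d0 d1 d2 d3
    f0 f1 f2 f3 : ℝ) (hl : 0 ≤ l) (hr : 0 ≤ r) (hb : 0 ≤ b) (hy : 0 ≤ y)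
    (h10 : t0 + b + 2 * a + r ≤ l + e) (h11 : t1 + b + 2 * a + r ≤ l + e)
    (h12 : t2 + b + 2 * a + r ≤ l + e) (h13 : t3 + b + 2 * a + r ≤ l + e)
    (h2 : e ≤ l + 2 * α + 3 * r) (h3 : a ≤ l + α)
    (h40 : m0 ≤ l + M0) (h41 : m1 ≤ l + M1) (h42 : m2 ≤ l + M2) (h43 : m3 ≤ l + M3)
    (h50 : q + M0 ≤ l + y + t0) (h51 : q + M1 ≤ l + y + t1) (h52 : q + M2 ≤ l + y + t2)
    (h53 : q + M3 ≤ l + y + t3)
    (h6 : (M0 + y) + (M1 + y) + (M2 + y) + (M3 + y) ≤ l + 3 * q)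
    (h70 : n + 4 * h ≤ l + m0 + 4 * a + (t0 + b) + 2 * r)
    (h71 : n + 4 * h ≤ l + m1 + 4 * a + (t1 + b) + 2 * r)
    (h72 : n + 4 * h ≤ l + m2 + 4 * a + (t2 + b) + 2 * r)
    (h73 : n + 4 * h ≤ l + m3 + 4 * a + (t3 + b) + 2 * r)
    (h8 : n + 8 / 3 * h ≤ l + (1 / 3 * (2 * a + (t0 + b) + r) + 1 / 3 * (2 * a + (t1 + b) + r) +
      1 / 3 * (2 * a + (t2 + b) + r) + 1 / 3 * (2 * a + (t3 + b) + r)))
    (h90 : m0 ≤ l + d0) (h91 : m1 ≤ l + d1) (h92 : m2 ≤ l + d2) (h93 : m3 ≤ l + d3)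
    (hA : v0 + 1 / 2 * r + (d0 + d1 + d2 + d3) ≤
      l + q + ((M0 + b) + (M1 + b) + (M2 + b) + (M3 + b)))
    (hB : v1 + r + (f0 + f1 + f2 + f3) ≤ l + q + ((M0 + b) + (M1 + b) + (M2 + b) + (M3 + b)))
    (hC0 : 2 * (n + 2 * h) ≤ l + (f1 - d1) + 4 * a + (t0 + b) + 2 * r + (v0 + 1 / 2 * r + d0))
    (hC1 : 2 * (n + 2 * h) ≤ l + (f2 - d2) + 4 * a + (t1 + b) + 2 * r + (v0 + 1 / 2 * r + d1))
    (hC2 : 2 * (n + 2 * h) ≤ l + (f3 - d3) + 4 * a + (t2 + b) + 2 * r + (v0 + 1 / 2 * r + d2))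
    (hC3 : 2 * (n + 2 * h) ≤ l + (f0 - d0) + 4 * a + (t3 + b) + 2 * r + (v0 + 1 / 2 * r + d3))
    (hD0 : 2 * (n + 2 * h) ≤ l + (M1 + b + -(1 / 2) * r - f1) + 4 * a + (t0 + b) + 2 * r +
      (v1 + r + f0))
    (hD1 : 2 * (n + 2 * h) ≤ l + (M2 + b + -(1 / 2) * r - f2) + 4 * a + (t1 + b) + 2 * r +
      (v1 + r + f1))
    (hD2 : 2 * (n + 2 * h) ≤ l + (M3 + b + -(1 / 2) * r - f3) + 4 * a + (t2 + b) + 2 * r +
      (v1 + r + f2))
    (hD3 : 2 * (n + 2 * h) ≤ l + (M0 + b + -(1 / 2) * r - f0) + 4 * a + (t3 + b) + 2 * r +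
      (v1 + r + f3)) :
    n + 10 / 3 * h ≤ 10 * l + -(1 / 1164) * r + 4 / 3 * α + 4 / 3 * r + e := by
  linarith

theorem pf_ALB : T_ALB := by
  intro N H q E A L R a b y V0 V1 M1 M t D0 D1 hN hH hq hE hA hL hR ha hb hy hV0 hV1 hM1 hM ht
    hD0 hD1 g1 g2 g3 g4 g5 g6 g7 g8 g9 gA gB gC gD
  have hL0 : 0 < L := by linarith
  have hR0 : 0 < R := by linarith
  have hb0 : 0 < b := by linarith
  have hy0 : 0 < y := by linarith
  have p0 := hM1 0
  have p1 := hM1 1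
  have p2 := hM1 2
  have p3 := hM1 3
  have q0 := hM 0
  have q1 := hM 1
  have q2 := hM 2
  have q3 := hM 3
  have r0 := ht 0
  have r1 := ht 1
  have r2 := ht 2
  have r3 := ht 3
  have s0 := hD0 0
  have s1 := hD0 1
  have s2 := hD0 2
  have s3 := hD0 3
  have u0 := hD1 0
  have u1 := hD1 1
  have u2 := hD1 2
  have u3 := hD1 3
  have c0 : (0 : Fin 4) + 1 = 1 := rfl
  have c1 : (1 : Fin 4) + 1 = 2 := rfl
  have c2 : (2 : Fin 4) + 1 = 3 := rfl
  have c3 : (3 : Fin 4) + 1 = 0 := rfl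
  have k2 := Real.log_le_log (by positivity) g2
  have k3 := Real.log_le_log (by positivity) g3
  have k6 := g6
  have kA := gA
  have kB := gB
  have k8 := g8
  rw [Fin.prod_univ_four] at k6 k8
  rw [Fin.prod_univ_four, Fin.prod_univ_four] at kA kB
  replace k6 := Real.log_le_log (by positivity) k6
  replace kA := Real.log_le_log (by positivity) kA
  replace kB := Real.log_le_log (by positivity) kB
  replace k8 := Real.log_le_log (by positivity) k8
  have k10 := Real.log_le_log (by positivity) (g1 0)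
  have k11 := Real.log_le_log (by positivity) (g1 1)
  have k12 := Real.log_le_log (by positivity) (g1 2)
  have k13 := Real.log_le_log (by positivity) (g1 3)
  have k40 := Real.log_le_log (by positivity) (g4 0)
  have k41 := Real.log_le_log (by positivity) (g4 1)
  have k42 := Real.log_le_log (by positivity) (g4 2)
  have k43 := Real.log_le_log (by positivity) (g4 3)
  have k50 := Real.log_le_log (by positivity) (g5 0)
  have k51 := Real.log_le_log (by positivity) (g5 1)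
  have k52 := Real.log_le_log (by positivity) (g5 2)
  have k53 := Real.log_le_log (by positivity) (g5 3)
  have k70 := Real.log_le_log (by positivity) (g7 0)
  have k71 := Real.log_le_log (by positivity) (g7 1)
  have k72 := Real.log_le_log (by positivity) (g7 2)
  have k73 := Real.log_le_log (by positivity) (g7 3)
  have k90 := Real.log_le_log (by positivity) (g9 0)
  have k91 := Real.log_le_log (by positivity) (g9 1)
  have k92 := Real.log_le_log (by positivity) (g9 2)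
  have k93 := Real.log_le_log (by positivity) (g9 3)
  have kC0 := Real.log_le_log (by positivity) (gC 0)
  have kC1 := Real.log_le_log (by positivity) (gC 1)
  have kC2 := Real.log_le_log (by positivity) (gC 2)
  have kC3 := Real.log_le_log (by positivity) (gC 3)
  have kD0 := Real.log_le_log (by positivity) (gD 0)
  have kD1 := Real.log_le_log (by positivity) (gD 1)
  have kD2 := Real.log_le_log (by positivity) (gD 2)
  have kD3 := Real.log_le_log (by positivity) (gD 3)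
  rw [c0] at kC0 kD0
  rw [c1] at kC1 kD1
  rw [c2] at kC2 kD2
  rw [c3] at kC3 kD3
  simp (disch := positivity) only [Real.log_mul, Real.log_div, Real.log_pow, Real.log_rpow]
    at k2 k3 k6 kA kB k8 k10 k11 k12 k13 k40 k41 k42 k43 k50 k51 k52 k53 k70 k71 k72 k73 k90 k91
      k92 k93 kC0 kC1 kC2 kC3 kD0 kD1 kD2 kD3
  push_cast at k2 k10 k11 k12 k13 k70 k71 k72 k73 k8 kC0 kC1 kC2 kC3 kD0 kD1 kD2 kD3
  rw [← Real.log_le_log_iff (by positivity) (by positivity)]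
  simp (disch := positivity) only [Real.log_mul, Real.log_pow, Real.log_rpow]
  push_cast
  exact lp _ _ _ _ _ _ _ _ _ _ _ _ _ _ _ _ _ _ _ _ _ _ _ _ _ _ _ _ _ _ _ _
    (Real.log_nonneg hL) (Real.log_nonneg hR) (Real.log_nonneg hb) (Real.log_nonneg hy)
    k10 k11 k12 k13 k2 k3 k40 k41 k42 k43 k50 k51 k52 k53 k6 k70 k71 k72 k73 k8 k90 k91 k92 k93
    kA kB kC0 kC1 kC2 kC3 kD0 kD1 kD2 kD3

end Pool.Agent.H12.B2.ALB
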